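import Pool.Agent.H7.ME.Stmts

/-!
Board `ia13`, row ZST (helper23): one exceptional vertex, cliques with `t ≥ 4` vertices
(after the proof of row ZSU of the board `hz12` by helper80).
-/

set_option autoImplicit false

open Finset

namespace Pool.ME7

open Pool.Agent.H23.KT Pool.Agent.H46.KW Pool.KQ Pool.GT7 Pool.GU7 Pool.HZ7 Pool.IA7

namespace ZST23

theorem kc_le_pow {V : Type} (G : SimpleGraph V) (W : Finset V) (k : ℕ) :
    kc G W k ≤ W.card ^ k := by
  classical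
  unfold kc
  refine (Finset.card_filter_le _ _).trans ?_
  rw [Finset.card_powersetCard]
  exact Nat.choose_le_pow _ _

theorem pow_up (e : ℝ) (h0 : 0 ≤ e) (h1 : e ≤ 1) (n : ℕ) :
    (1 + e) ^ n ≤ 1 + ((2 : ℝ) ^ n - 1) * e := by
  induction n with
  | zero => simp
  | succ n ih =>
    have h2 : (1 : ℝ) ≤ 2 ^ n := one_le_pow₀ (by norm_num)
    have h3 : (1 + e) ^ (n + 1) ≤ (1 + ((2 : ℝ) ^ n - 1) * e) * (1 + e) := by
      rw [pow_succ]
      exact mul_le_mul_of_nonneg_right ih (by linarith)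
    have h4 : ((2 : ℝ) ^ n - 1) * e * e ≤ ((2 : ℝ) ^ n - 1) * e * 1 :=
      mul_le_mul_of_nonneg_left h1 (mul_nonneg (by linarith) h0)
    have h5 : (2 : ℝ) ^ (n + 1) = 2 * 2 ^ n := by ring
    rw [h5]
    nlinarith

theorem pow_dn (e : ℝ) (h1 : e ≤ 1) (n : ℕ) : 1 - (n : ℝ) * e ≤ (1 - e) ^ n := by
  have h := one_add_mul_le_pow (a := -e) (by linarith) n
  have e1 : (1 + -e) = 1 - e := by ring
  rw [e1] at h
  linarith

theorem fin_calc (c φ e a κ N S T L K δ R η : ℝ) (p m w : ℕ) (hn : p + 2 = m + w) (hc : 0 ≤ c)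
    (hφ0 : 0 < φ) (hφ : φ < 1) (he0 : 0 ≤ e) (he : e ≤ 1 / 2) (ha : 0 < a) (hκ : 0 ≤ κ)
    (hκ' : κ ≤ R * a ^ (w + 1)) (hN : N ≤ ((1 + e) * a) ^ (p + 3))
    (h1 : S + η * L ≤ N * (c * (1 - φ)) + φ * c * T)
    (h2 : ((1 - e) * a) ^ m * κ ≤ S + K * a ^ (p + 2))
    (hD : ((m : ℝ) * R + 2 ^ (p + 3) * c) * e ≤ δ / 2) (hK : K ≤ δ / 2 * a) :
    κ + η * L / a ^ m ≤
      c * (1 - φ) * a ^ (w + 1) + c * φ * a ^ (w + 1) / a ^ (p + 3) * T + δ * a ^ (w + 1) := by
  have ham : 0 < a ^ m := pow_pos ha _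
  have haw : 0 < a ^ w := pow_pos ha _
  have haw1 : 0 < a ^ (w + 1) := pow_pos ha _
  have hφ1 : 0 ≤ c * (1 - φ) := mul_nonneg hc (by linarith)
  have hφ2 : c * (1 - φ) ≤ c := by nlinarith
  have e3 : a ^ (p + 3) = a ^ m * a ^ (w + 1) := by
    rw [← pow_add]
    congr 1
    omega
  have e2 : a ^ (p + 2) = a ^ m * a ^ w := by
    rw [← pow_add, hn]
  have h3 : (1 - e) ^ m * κ * a ^ m + η * L ≤
      (1 + e) ^ (p + 3) * (c * (1 - φ)) * a ^ (w + 1) * a ^ m + φ * c * T + K * a ^ w * a ^ m := by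
    have h4 : N * (c * (1 - φ)) ≤ ((1 + e) * a) ^ (p + 3) * (c * (1 - φ)) :=
      mul_le_mul_of_nonneg_right hN hφ1
    have h5 : ((1 + e) * a) ^ (p + 3) * (c * (1 - φ)) =
        (1 + e) ^ (p + 3) * (c * (1 - φ)) * a ^ (w + 1) * a ^ m := by
      rw [mul_pow, e3]
      ring
    have h6 : ((1 - e) * a) ^ m * κ = (1 - e) ^ m * κ * a ^ m := by
      rw [mul_pow]
      ring
    have h7 : K * a ^ (p + 2) = K * a ^ w * a ^ m := by
      rw [e2]
      ring
    rw [h6, h7] at h2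
    rw [h5] at h4
    linarith
  have h7 : (1 - e) ^ m * κ + η * L / a ^ m ≤
      (1 + e) ^ (p + 3) * (c * (1 - φ)) * a ^ (w + 1) +
        c * φ * a ^ (w + 1) / a ^ (p + 3) * T + K * a ^ w := by
    have e4 : (1 - e) ^ m * κ + η * L / a ^ m =
        ((1 - e) ^ m * κ * a ^ m + η * L) / a ^ m := by
      field_simp
    have e5 : (1 + e) ^ (p + 3) * (c * (1 - φ)) * a ^ (w + 1) +
        c * φ * a ^ (w + 1) / a ^ (p + 3) * T + K * a ^ w =
        ((1 + e) ^ (p + 3) * (c * (1 - φ)) * a ^ (w + 1) * a ^ m + φ * c * T +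
          K * a ^ w * a ^ m) / a ^ m := by
      rw [e3]
      field_simp
    rw [e4, e5]
    exact div_le_div_of_nonneg_right h3 ham.le
  have h8 : 1 - (m : ℝ) * e ≤ (1 - e) ^ m := pow_dn e (by linarith) m
  have h9 : (1 + e) ^ (p + 3) ≤ 1 + 2 ^ (p + 3) * e := by
    have := pow_up e he0 (by linarith) (p + 3)
    nlinarith
  have h10 : (1 - (m : ℝ) * e) * κ ≤ (1 - e) ^ m * κ := mul_le_mul_of_nonneg_right h8 hκ
  have h11 : (1 + e) ^ (p + 3) * ((c * (1 - φ)) * a ^ (w + 1)) ≤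
      (1 + 2 ^ (p + 3) * e) * ((c * (1 - φ)) * a ^ (w + 1)) :=
    mul_le_mul_of_nonneg_right h9 (mul_nonneg hφ1 haw1.le)
  have h12 : (m : ℝ) * e * κ ≤ (m : ℝ) * e * (R * a ^ (w + 1)) :=
    mul_le_mul_of_nonneg_left hκ' (mul_nonneg (Nat.cast_nonneg _) he0)
  have h13 : 2 ^ (p + 3) * e * ((c * (1 - φ)) * a ^ (w + 1)) ≤
      2 ^ (p + 3) * e * (c * a ^ (w + 1)) := by
    refine mul_le_mul_of_nonneg_left ?_ (by positivity)
    exact mul_le_mul_of_nonneg_right hφ2 haw1.le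
  have h14 : ((m : ℝ) * R + 2 ^ (p + 3) * c) * e * a ^ (w + 1) ≤ δ / 2 * a ^ (w + 1) :=
    mul_le_mul_of_nonneg_right hD haw1.le
  have h15 : K * a ^ w ≤ δ / 2 * a ^ (w + 1) := by
    have h16 : K * a ^ w ≤ δ / 2 * a * a ^ w := mul_le_mul_of_nonneg_right hK haw.le
    have h17 : δ / 2 * a * a ^ w = δ / 2 * a ^ (w + 1) := by
      rw [pow_succ]
      ring
    linarith
  nlinarith

end ZST23

theorem zst_thm (hPWT : PWTStmt) (hEXB : EXBStmt) (hTRV : TRVStmt) : ZSTStmt := by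
  intro p w r hpr δ hδ
  obtain ⟨-, hφ0, hφ1, hpw1, hpw2⟩ := hPWT p w r hpr
  obtain ⟨m, hm⟩ : ∃ m, p + 2 = m + w := ⟨p + 2 - w, by have := hpr.wp; omega⟩
  have hm' : p + 2 - w = m := by omega
  have hc0 : 0 < c1 p w := by
    unfold c1
    have h1 : 0 < (p + 2).choose (w + 1) := Nat.choose_pos (by have := hpr.wp; omega)
    exact_mod_cast h1
  set R : ℝ := (2 * ((p : ℝ) + 3)) ^ (w + 1) with hR
  have hR0 : 0 < R := by
    rw [hR]
    positivity
  set D : ℝ := (m : ℝ) * R + 2 ^ (p + 3) * c1 p w with hD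
  have hD0 : 0 < D := by
    rw [hD]
    positivity
  refine ⟨min (1 / 2) (δ / (2 * D)), lt_min (by norm_num) (by positivity), min_le_left _ _, ?_⟩
  intro C hC
  set K : ℝ := ((p + 3).choose (w + 1) : ℝ) * C * 2 ^ (p + 1) with hK
  have hK0 : 0 ≤ K := by
    rw [hK]
    positivity
  obtain ⟨a₁, ha₁⟩ := exists_nat_ge (2 * K / δ)
  refine ⟨max 1 a₁, ?_⟩
  intro a ha V _ G e f C' W P U he0 he hS hCB z hz
  have ha1 : 1 ≤ a := le_trans (le_max_left _ _) ha
  have ha2 : a₁ ≤ a := le_trans (le_max_right _ _) ha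
  have haR : (0 : ℝ) < a := by exact_mod_cast ha1
  have heh : e ≤ 1 / 2 := he.trans (min_le_left _ _)
  have heD : e ≤ δ / (2 * D) := he.trans (min_le_right _ _)
  have hKa : K ≤ δ / 2 * a := by
    have h1 : 2 * K / δ ≤ (a : ℝ) := ha₁.trans (by exact_mod_cast ha2)
    rw [div_le_iff₀ hδ] at h1
    linarith
  have hDe : D * e ≤ δ / 2 := by
    have h1 : D * e ≤ D * (δ / (2 * D)) := mul_le_mul_of_nonneg_left heD hD0.le
    have h2 : D * (δ / (2 * D)) = δ / 2 := by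
      field_simp
    linarith
  -- z is outside of the parts
  have hzX : z ∉ un P := by
    intro h
    unfold un at h
    obtain ⟨i, -, hi⟩ := Finset.mem_biUnion.1 h
    exact Finset.disjoint_left.1 (hS.disU i) hi hz
  have hzW : z ∈ W := (hS.cov z).2 (Or.inl hz)
  have hXW : un P ⊆ W := by
    intro y hy
    unfold un at hy
    obtain ⟨i, -, hi⟩ := Finset.mem_biUnion.1 hy
    exact (hS.cov y).2 (Or.inr ⟨i, hi⟩)
  -- at most p + 2 neighbours
  have hB : ∀ L ∈ clq G (un P) (p + 3), (nb G L z).card ≤ p + 2 := by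
    intro L hL
    rw [mem_clq] at hL
    obtain ⟨hLX, hLc, hLq⟩ := hL
    by_contra hcon
    have h1 : (nb G L z).card ≤ L.card := Finset.card_le_card (nb_subset G L z)
    have h2 : nb G L z = L := Finset.eq_of_subset_of_card_le (nb_subset G L z) (by omega)
    have h3 : G.IsClique ((insert z L : Finset V) : Set V) := by
      rw [Finset.coe_insert, SimpleGraph.isClique_insert]
      refine ⟨hLq, fun y hy _ => ?_⟩
      have hy' : y ∈ nb G L z := by
        rw [h2]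
        exact hy
      exact ((mem_nb G).1 hy').2
    have h4 := hCB (insert z L) (Finset.insert_subset hzW (hLX.trans hXW)) h3
    rw [Finset.card_insert_of_notMem (fun h => hzX (hLX h))] at h4
    omega
  -- the sum of PWT
  have hsum : (∑ L ∈ clq G (un P) (p + 3), ((nb G L z).card.choose (w + 1) : ℝ)) +
      1 / (2 * ((p : ℝ) + 3) ^ 2) * (nlow G p (un P) z : ℝ) ≤
      (kc G (un P) (p + 3) : ℝ) * (c1 p w * (1 - pt p w r)) +
        pt p w r * c1 p w * TZ G p r (un P) z := by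
    have h1 : 1 / (2 * ((p : ℝ) + 3) ^ 2) * (nlow G p (un P) z : ℝ) =
        ∑ L ∈ clq G (un P) (p + 3),
          (if (nb G L z).card ≤ p + 1 then 1 / (2 * ((p : ℝ) + 3) ^ 2) else 0) := by
      rw [← Finset.sum_filter, Finset.sum_const, nsmul_eq_mul]
      unfold nlow
      ring
    have h2 : (kc G (un P) (p + 3) : ℝ) * (c1 p w * (1 - pt p w r)) =
        ∑ L ∈ clq G (un P) (p + 3), (c1 p w * (1 - pt p w r)) := by
      rw [Finset.sum_const, nsmul_eq_mul, kc_eq]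
    have h3 : pt p w r * c1 p w * TZ G p r (un P) z =
        ∑ L ∈ clq G (un P) (p + 3), pt p w r * c1 p w * ww p r (nb G L z).card := by
      unfold TZ
      rw [Finset.mul_sum]
    rw [h1, h2, h3, ← Finset.sum_add_distrib, ← Finset.sum_add_distrib]
    refine Finset.sum_le_sum fun L hL => ?_
    have hBL := hB L hL
    split_ifs with hc
    · exact hpw2 _ hc
    · rw [add_zero]
      exact hpw1 _ hBL
  have hEx := hEXB G p a e P he0 heh hS.par (fun i => ⟨hS.lo i, hS.hi i⟩) z (w + 1)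
    (by have := hpr.wp; omega)
  have h1e : 0 ≤ (1 - e) * (a : ℝ) := mul_nonneg (by linarith) haR.le
  have hEx2 : ((1 - e) * (a : ℝ)) ^ m * (kc G (nb G (un P) z) (w + 1) : ℝ) ≤
      (∑ L ∈ clq G (un P) (p + 3), ((nb G L z).card.choose (w + 1) : ℝ)) +
        K * (a : ℝ) ^ (p + 2) := by
    have h2 : p + 3 - (w + 1) = m := by omega
    rw [h2] at hEx
    have h3 : ((p + 3).choose (w + 1) : ℝ) * (tot G P * (2 * (a : ℝ)) ^ (p + 1)) ≤
        K * (a : ℝ) ^ (p + 2) := by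
      have h4 : (tot G P : ℝ) * (2 * (a : ℝ)) ^ (p + 1) ≤ C * a * (2 * (a : ℝ)) ^ (p + 1) :=
        mul_le_mul_of_nonneg_right hS.tot (by positivity)
      have h5 : ((p + 3).choose (w + 1) : ℝ) * ((tot G P : ℝ) * (2 * (a : ℝ)) ^ (p + 1)) ≤
          ((p + 3).choose (w + 1) : ℝ) * (C * a * (2 * (a : ℝ)) ^ (p + 1)) :=
        mul_le_mul_of_nonneg_left h4 (by positivity)
      refine h5.trans (le_of_eq ?_)
      rw [hK, mul_pow]
      ring
    linarith
  -- sizes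
  have hprod : (kc G (un P) (p + 3) : ℝ) ≤ ((1 + e) * (a : ℝ)) ^ (p + 3) := by
    have h1 := (hTRV G P hS.par).1
    have h2 : (trv G P).card ≤ ∏ i, (P i).card := by
      classical
      rw [← Fintype.card_piFinset]
      unfold trv
      exact Finset.card_filter_le _ _
    have h3 : (kc G (un P) (p + 3) : ℝ) ≤ ∏ i, ((P i).card : ℝ) := by
      rw [h1]
      exact_mod_cast h2
    refine h3.trans ?_
    calc ∏ i, ((P i).card : ℝ) ≤ ∏ _i : Fin (p + 3), ((1 + e) * (a : ℝ)) :=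
          Finset.prod_le_prod (fun i _ => Nat.cast_nonneg _) (fun i _ => hS.hi i)
      _ = ((1 + e) * (a : ℝ)) ^ (p + 3) := by
          rw [Finset.prod_const, Finset.card_univ, Fintype.card_fin]
  have hcard : ((nb G (un P) z).card : ℝ) ≤ (2 * ((p : ℝ) + 3)) * (a : ℝ) := by
    have h1 : (nb G (un P) z).card ≤ ∑ i, (P i).card :=
      (Finset.card_le_card (nb_subset G (un P) z)).trans (by
        unfold un
        exact Finset.card_biUnion_le)
    have h2 : ((nb G (un P) z).card : ℝ) ≤ ∑ i, ((P i).card : ℝ) := by exact_mod_cast h1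
    refine h2.trans ?_
    calc ∑ i, ((P i).card : ℝ) ≤ ∑ _i : Fin (p + 3), (2 * (a : ℝ)) :=
          Finset.sum_le_sum fun i _ => (hS.hi i).trans
            (mul_le_mul_of_nonneg_right (by linarith) haR.le)
      _ = (2 * ((p : ℝ) + 3)) * (a : ℝ) := by
          rw [Finset.sum_const, Finset.card_univ, Fintype.card_fin, nsmul_eq_mul]
          push_cast
          ring
  have hκ : (kc G (nb G (un P) z) (w + 1) : ℝ) ≤ R * (a : ℝ) ^ (w + 1) := by
    have h1 : (kc G (nb G (un P) z) (w + 1) : ℝ) ≤ ((nb G (un P) z).card : ℝ) ^ (w + 1) := by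
      exact_mod_cast ZST23.kc_le_pow G (nb G (un P) z) (w + 1)
    refine h1.trans ?_
    rw [hR, ← mul_pow]
    exact pow_le_pow_left₀ (Nat.cast_nonneg _) hcard _
  have hfin := ZST23.fin_calc (c1 p w) (pt p w r) e a (kc G (nb G (un P) z) (w + 1) : ℝ)
    (kc G (un P) (p + 3) : ℝ)
    (∑ L ∈ clq G (un P) (p + 3), ((nb G L z).card.choose (w + 1) : ℝ))
    (TZ G p r (un P) z) (nlow G p (un P) z : ℝ) K δ R (1 / (2 * ((p : ℝ) + 3) ^ 2)) p m w hm
    hc0.le hφ0 hφ1 he0 heh haR (Nat.cast_nonneg _) hκ hprod hsum hEx2 hDe hKa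
  rw [hm']
  unfold Mt
  exact hfin

end Pool.ME7
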